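import Mathlib
import Pool.Agent.Helper565.QWi

namespace Pool.Agent.Results.MP_8bfff4_mp.ExactValue

open Matrix
open scoped ComplexOrder

/-- The completely positive map `X ↦ ∑ i, A i X (A i)†` with Kraus operators `A i`. -/
noncomputable def krausMap {D d : ℕ} (A : Fin d → Matrix (Fin D) (Fin D) ℂ)
    (X : Matrix (Fin D) (Fin D) ℂ) : Matrix (Fin D) (Fin D) ℂ :=
  ∑ i, A i * X * (A i)ᴴ

/-- `T` is a quantum channel on the `D × D` complex matrices: it has a Kraus form with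
`∑ i, (A i)† A i = 1`, for some number `d` of Kraus operators. -/
def IsChannel {D : ℕ} (T : Matrix (Fin D) (Fin D) ℂ → Matrix (Fin D) (Fin D) ℂ) : Prop :=
  ∃ (d : ℕ) (A : Fin d → Matrix (Fin D) (Fin D) ℂ),
    ∑ i, (A i)ᴴ * A i = 1 ∧ T = krausMap A

/-- `T^n` maps every nonzero positive semidefinite matrix to one of full rank. -/
def FullRankAt {D : ℕ} (T : Matrix (Fin D) (Fin D) ℂ → Matrix (Fin D) (Fin D) ℂ) (n : ℕ) : Prop :=
  ∀ ρ : Matrix (Fin D) (Fin D) ℂ, ρ.PosSemidef → ρ ≠ 0 → (T^[n] ρ).rank = D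

/-- `T` is a primitive quantum channel: it is a channel and for some `n` every nonzero
positive semidefinite `ρ` has `T^n ρ` of full rank `D`. -/
def IsPrimitive {D : ℕ} (T : Matrix (Fin D) (Fin D) ℂ → Matrix (Fin D) (Fin D) ℂ) : Prop :=
  IsChannel T ∧ ∃ n, FullRankAt T n

/-- The primitivity index: the least `n` such that `T^n ρ` has full rank for every nonzero
positive semidefinite `ρ`. -/
noncomputable def primitivityIndex {D : ℕ}
    (T : Matrix (Fin D) (Fin D) ℂ → Matrix (Fin D) (Fin D) ℂ) : ℕ :=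
  sInf {n | FullRankAt T n}

section general

variable {D d : ℕ}

lemma krausMap_psd (A : Fin d → Matrix (Fin D) (Fin D) ℂ) {X : Matrix (Fin D) (Fin D) ℂ}
    (hX : X.PosSemidef) : (krausMap A X).PosSemidef := by
  unfold krausMap
  apply Matrix.posSemidef_sum
  intro i _
  exact hX.mul_mul_conjTranspose_same (A i)

lemma krausMap_iter_psd (A : Fin d → Matrix (Fin D) (Fin D) ℂ) (n : ℕ)
    {X : Matrix (Fin D) (Fin D) ℂ}
    (hX : X.PosSemidef) : ((krausMap A)^[n] X).PosSemidef := by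
  induction n with
  | zero => simpa using hX
  | succ n ih => rw [Function.iterate_succ_apply']; exact krausMap_psd A ih

lemma krausMap_ker (A : Fin d → Matrix (Fin D) (Fin D) ℂ) {X : Matrix (Fin D) (Fin D) ℂ}
    (hX : X.PosSemidef) {v : Fin D → ℂ} (hv : krausMap A X *ᵥ v = 0) (i : Fin d) :
    X *ᵥ ((A i)ᴴ *ᵥ v) = 0 := by
  have h1 : star v ⬝ᵥ (krausMap A X *ᵥ v) = 0 := by rw [hv]; simp
  unfold krausMap at h1
  rw [Matrix.sum_mulVec, dotProduct_sum] at h1
  have h2 : ∀ j ∈ Finset.univ, 0 ≤ star v ⬝ᵥ ((A j * X * (A j)ᴴ) *ᵥ v) := by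
    intro j _
    exact (hX.mul_mul_conjTranspose_same (A j)).dotProduct_mulVec_nonneg v
  have h3 := (Finset.sum_eq_zero_iff_of_nonneg h2).1 h1 i (Finset.mem_univ i)
  have h4 : star ((A i)ᴴ *ᵥ v) ⬝ᵥ (X *ᵥ ((A i)ᴴ *ᵥ v)) = 0 := by
    rw [← h3]
    rw [Matrix.star_mulVec, conjTranspose_conjTranspose, ← Matrix.dotProduct_mulVec,
      Matrix.mulVec_mulVec, Matrix.mulVec_mulVec, Matrix.mul_assoc]
  exact (hX.dotProduct_mulVec_zero_iff _).1 h4

lemma rank_eq_iff (X : Matrix (Fin D) (Fin D) ℂ) :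
    X.rank = D ↔ ∀ v : Fin D → ℂ, X *ᵥ v = 0 → v = 0 := by
  have h1 := LinearMap.finrank_range_add_finrank_ker X.mulVecLin
  rw [Module.finrank_fin_fun] at h1
  have h2 : X.rank = Module.finrank ℂ (LinearMap.range X.mulVecLin) := rfl
  constructor
  · intro h v hv
    have h3 : Module.finrank ℂ (LinearMap.ker X.mulVecLin) = 0 := by omega
    rw [Submodule.finrank_eq_zero] at h3
    have : v ∈ LinearMap.ker X.mulVecLin := by simpa [LinearMap.mem_ker] using hv
    rw [h3] at this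
    simpa using this
  · intro h
    have h3 : LinearMap.ker X.mulVecLin = ⊥ := by
      rw [LinearMap.ker_eq_bot']
      intro v hv
      exact h v (by simpa using hv)
    rw [h3, finrank_bot] at h1
    omega

lemma krausMap_add (A : Fin d → Matrix (Fin D) (Fin D) ℂ) (X Y : Matrix (Fin D) (Fin D) ℂ) :
    krausMap A (X + Y) = krausMap A X + krausMap A Y := by
  simp [krausMap, Matrix.mul_add, Matrix.add_mul, Finset.sum_add_distrib]

lemma krausMap_smul (A : Fin d → Matrix (Fin D) (Fin D) ℂ) (c : ℂ)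
    (X : Matrix (Fin D) (Fin D) ℂ) :
    krausMap A (c • X) = c • krausMap A X := by
  simp [krausMap, Finset.smul_sum]

lemma krausMap_trace (A : Fin d → Matrix (Fin D) (Fin D) ℂ) (hA : ∑ i, (A i)ᴴ * A i = 1)
    (X : Matrix (Fin D) (Fin D) ℂ) : (krausMap A X).trace = X.trace := by
  unfold krausMap
  rw [Matrix.trace_sum]
  have : ∀ i, (A i * X * (A i)ᴴ).trace = ((A i)ᴴ * A i * X).trace := by
    intro i
    rw [Matrix.trace_mul_comm, ← Matrix.mul_assoc]
  rw [Finset.sum_congr rfl (fun i _ => this i), ← Matrix.trace_sum, ← Finset.sum_mul, hA,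
    Matrix.one_mul]

lemma krausMap_ne_zero (A : Fin d → Matrix (Fin D) (Fin D) ℂ) (hA : ∑ i, (A i)ᴴ * A i = 1)
    {X : Matrix (Fin D) (Fin D) ℂ} (hX : X.PosSemidef) (h0 : X ≠ 0) : krausMap A X ≠ 0 := by
  intro h
  apply h0
  rw [← hX.trace_eq_zero_iff, ← krausMap_trace A hA X, h, Matrix.trace_zero]

lemma FullRankAt.mono {T : Matrix (Fin D) (Fin D) ℂ → Matrix (Fin D) (Fin D) ℂ}
    (hT : IsChannel T) {n m : ℕ} (hnm : n ≤ m) (h : FullRankAt T n) : FullRankAt T m := by
  obtain ⟨d, A, hA, rfl⟩ := hT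
  induction m, hnm using Nat.le_induction with
  | base => exact h
  | succ m _ ih =>
    intro ρ hρ h0
    rw [Function.iterate_succ_apply]
    exact ih _ (krausMap_psd A hρ) (krausMap_ne_zero A hA hρ h0)

lemma primitivityIndex_eq {T : Matrix (Fin D) (Fin D) ℂ → Matrix (Fin D) (Fin D) ℂ}
    (hT : IsChannel T) {n : ℕ} (h1 : FullRankAt T (n+1)) (h2 : ¬ FullRankAt T n) :
    IsPrimitive T ∧ primitivityIndex T = n + 1 := by
  refine ⟨⟨hT, _, h1⟩, le_antisymm (Nat.sInf_le h1) ?_⟩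
  by_contra h
  push Not at h
  have h3 : FullRankAt T (primitivityIndex T) := Nat.sInf_mem (s := {n | FullRankAt T n}) ⟨_, h1⟩
  exact h2 (FullRankAt.mono hT (by omega) h3)

end general


section bridge

variable {D d : ℕ}

/-- the operators `C` with `ρ C† v = 0` -/
def annih (ρ : Matrix (Fin D) (Fin D) ℂ) (v : Fin D → ℂ) :
    Submodule ℂ (Matrix (Fin D) (Fin D) ℂ) where
  carrier := {C | ρ *ᵥ (Cᴴ *ᵥ v) = 0}
  zero_mem' := by simp
  add_mem' := by
    intro x y hx hy
    simp only [Set.mem_ofPred_eq] at *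
    rw [conjTranspose_add, Matrix.add_mulVec, Matrix.mulVec_add, hx, hy, add_zero]
  smul_mem' := by
    intro c x hx
    simp only [Set.mem_ofPred_eq] at *
    rw [conjTranspose_smul, Matrix.smul_mulVec, Matrix.mulVec_smul, hx, smul_zero]

lemma mem_annih {ρ : Matrix (Fin D) (Fin D) ℂ} {v : Fin D → ℂ} {C : Matrix (Fin D) (Fin D) ℂ} :
    C ∈ annih ρ v ↔ ρ *ᵥ (Cᴴ *ᵥ v) = 0 := Iff.rfl

lemma iter_ker_iff (A : Fin d → Matrix (Fin D) (Fin D) ℂ) {ρ : Matrix (Fin D) (Fin D) ℂ}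
    (hρ : ρ.PosSemidef) (n : ℕ) (v : Fin D → ℂ) :
    ((krausMap A)^[n] ρ) *ᵥ v = 0 ↔
      (Submodule.span ℂ (Set.range A)) ^ n ≤ annih ρ v := by
  induction n generalizing v with
  | zero =>
    rw [pow_zero, Submodule.one_le, mem_annih, conjTranspose_one, Matrix.one_mulVec]
    rfl
  | succ n ih =>
    rw [Function.iterate_succ_apply']
    have hX := krausMap_iter_psd A n hρ
    have h1 : krausMap A ((krausMap A)^[n] ρ) *ᵥ v = 0 ↔
        ∀ i, ((krausMap A)^[n] ρ) *ᵥ ((A i)ᴴ *ᵥ v) = 0 := by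
      constructor
      · intro h i
        exact krausMap_ker A hX h i
      · intro h
        unfold krausMap at *
        rw [Matrix.sum_mulVec]
        apply Finset.sum_eq_zero
        intro i _
        rw [← Matrix.mulVec_mulVec, ← Matrix.mulVec_mulVec, h i, Matrix.mulVec_zero]
    rw [h1, pow_succ', Submodule.mul_le]
    simp only [ih]
    constructor
    · intro h M hM C hC
      have h2 : Submodule.span ℂ (Set.range A) ≤ (annih ρ v).comap (LinearMap.mulRight ℂ C) := by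
        rw [Submodule.span_le]
        rintro _ ⟨i, rfl⟩
        have h3 := h i hC
        rw [mem_annih] at h3
        rw [SetLike.mem_coe, Submodule.mem_comap, LinearMap.mulRight_apply, mem_annih,
          conjTranspose_mul, ← Matrix.mulVec_mulVec]
        exact h3
      exact h2 hM
    · intro h i C hC
      have h3 := h (A i) (Submodule.subset_span ⟨i, rfl⟩) C hC
      rw [mem_annih, conjTranspose_mul, ← Matrix.mulVec_mulVec] at h3
      exact h3

lemma fullRankAt_iff (A : Fin d → Matrix (Fin D) (Fin D) ℂ) (n : ℕ) :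
    FullRankAt (krausMap A) n ↔ Full ((Submodule.span ℂ (Set.range A)) ^ n) := by
  constructor
  · intro h ψ hψ v
    by_contra hcon
    push Not at hcon
    have h1 : v ∉ LinearMap.range (evalAt ((Submodule.span ℂ (Set.range A)) ^ n) ψ) := by
      rintro ⟨C, hC⟩
      exact hcon C.1 C.2 hC
    obtain ⟨f, hf1, hf2⟩ := Submodule.exists_le_ker_of_notMem h1
    have hf : ∀ w : Fin D → ℂ, (fun i => f (Pi.single i 1)) ⬝ᵥ w = f w := by
      intro w
      conv_rhs => rw [pi_eq_sum_univ' w]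
      rw [map_sum]
      simp only [dotProduct]
      apply Finset.sum_congr rfl
      intro i _
      rw [map_smul, smul_eq_mul, mul_comm]
    let g : Fin D → ℂ := fun i => f (Pi.single i 1)
    have hg : star g ≠ 0 := by
      intro h0
      apply hf1
      have : g = 0 := by rw [← star_star g, h0, star_zero]
      rw [← hf v]
      show g ⬝ᵥ v = 0
      rw [this, zero_dotProduct]
    have hpsd : (vecMulVec ψ (star ψ)).PosSemidef := Matrix.posSemidef_vecMulVec_self_star ψ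
    have hne : vecMulVec ψ (star ψ) ≠ 0 := vecMulVec_ne_zero hψ (by
      intro h0; apply hψ; rw [← star_star ψ, h0, star_zero])
    have h2 := h _ hpsd hne
    rw [rank_eq_iff] at h2
    apply hg
    apply h2
    rw [iter_ker_iff A hpsd]
    intro C hC
    rw [mem_annih, vecMulVec_mulVec]
    have h3 : star ψ ⬝ᵥ Cᴴ *ᵥ star g = 0 := by
      have h4 : f (C *ᵥ ψ) = 0 := hf2 ⟨⟨C, hC⟩, rfl⟩
      rw [← hf] at h4
      have h5 : star (g ⬝ᵥ (C *ᵥ ψ)) = 0 := by
        show star ((fun i => f (Pi.single i 1)) ⬝ᵥ (C *ᵥ ψ)) = 0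
        rw [h4, star_zero]
      rw [← Matrix.star_dotProduct_star, Matrix.star_mulVec, ← Matrix.dotProduct_mulVec] at h5
      exact h5
    rw [h3]
    simp
  · intro h ρ hρ h0
    rw [rank_eq_iff]
    intro v hv
    rw [iter_ker_iff A hρ] at hv
    obtain ⟨y, hy⟩ : ∃ y, ρ *ᵥ y ≠ 0 := by
      by_contra hcon
      push Not at hcon
      apply h0
      apply Matrix.ext_of_mulVec_single
      intro i
      rw [hcon, Matrix.zero_mulVec]
    obtain ⟨C, hC, hCv⟩ := h _ hy v
    have h1 := hv hC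
    rw [mem_annih] at h1
    have h2 : star (ρ *ᵥ y) ⬝ᵥ (Cᴴ *ᵥ v) = 0 := by
      rw [Matrix.star_mulVec, hρ.1, ← Matrix.dotProduct_mulVec, h1, dotProduct_zero]
    have h3 : star v ⬝ᵥ v = 0 := by
      conv_lhs => rw [← hCv]
      rw [Matrix.star_mulVec, ← Matrix.dotProduct_mulVec, hCv]
      exact h2
    exact dotProduct_star_self_eq_zero.1 h3

/-- the upper bound -/
lemma index_le {T : Matrix (Fin D) (Fin D) ℂ → Matrix (Fin D) (Fin D) ℂ} (hD : 2 ≤ D)
    (hT : IsPrimitive T) : primitivityIndex T ≤ D * D - D + 1 := by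
  obtain ⟨⟨d, A, -, rfl⟩, n, hn⟩ := hT
  apply Nat.sInf_le
  exact (fullRankAt_iff A _).2 (full_bound hD ((fullRankAt_iff A n).1 hn))

end bridge

namespace Ex

section concrete

variable (k : ℕ)

/-- the shift `e_j ↦ e_{j+1}` -/
def S : Matrix (Fin (k+2)) (Fin (k+2)) ℂ := fun i j => if (i:ℕ) = j + 1 then 1 else 0

/-- the jump `e_{D-1} ↦ (e_0+e_1)/√2` -/
noncomputable def B : Matrix (Fin (k+2)) (Fin (k+2)) ℂ :=
  fun i j => if (i:ℕ) ≤ 1 ∧ (j:ℕ) = k + 1 then ((Real.sqrt 2 : ℝ) : ℂ)⁻¹ else 0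

/-- the Kraus operators -/
noncomputable def K : Fin 2 → Matrix (Fin (k+2)) (Fin (k+2)) ℂ := ![S k, B k]

/-- the channel -/
noncomputable def T : Matrix (Fin (k+2)) (Fin (k+2)) ℂ → Matrix (Fin (k+2)) (Fin (k+2)) ℂ :=
  krausMap (K k)

/-- `e_a` (zero if `a ≥ D`) -/
def e (a : ℕ) : Fin (k+2) → ℂ := fun i => if (i:ℕ) = a then 1 else 0

lemma sqrt_two_sq : ((Real.sqrt 2 : ℝ) : ℂ) * ((Real.sqrt 2 : ℝ) : ℂ) = 2 := by
  rw [← Complex.ofReal_mul, Real.mul_self_sqrt (by norm_num)]; norm_num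

lemma sum_le_one (k : ℕ) (c : ℂ) :
    ∑ i : Fin (k+2), (if (i:ℕ) ≤ 1 then c else 0) = 2 * c := by
  rw [Fin.sum_univ_succ, Fin.sum_univ_succ]
  simp [two_mul]

lemma sum_shift (k : ℕ) (j : Fin (k+2)) (f : Fin (k+2) → ℂ) :
    ∑ i : Fin (k+2), (if (i:ℕ) = (j:ℕ) + 1 then f i else 0)
      = if h : (j:ℕ) + 1 < k + 2 then f ⟨(j:ℕ)+1, h⟩ else 0 := by
  split_ifs with h
  · rw [Finset.sum_eq_single (⟨(j:ℕ)+1, h⟩ : Fin (k+2))]
    · simp
    · intro b _ hb
      rw [if_neg]
      intro h'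
      exact hb (Fin.ext h')
    · intro h'; exact absurd (Finset.mem_univ _) h'
  · apply Finset.sum_eq_zero
    intro i _
    rw [if_neg]
    have := i.2
    omega

lemma K_norm : ∑ i, (K k i)ᴴ * K k i = 1 := by
  rw [Fin.sum_univ_two]
  have h2 := sqrt_two_sq
  have h0 : ((Real.sqrt 2 : ℝ) : ℂ) ≠ 0 := by
    intro h; rw [h] at h2; norm_num at h2
  ext i j
  simp only [K, Matrix.cons_val_zero, Matrix.cons_val_one, Matrix.add_apply, Matrix.mul_apply,
    Matrix.conjTranspose_apply, S, B]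
  have e1 : ∀ x : Fin (k+2), star (if (x:ℕ) = (i:ℕ) + 1 then (1:ℂ) else 0) *
      (if (x:ℕ) = (j:ℕ) + 1 then (1:ℂ) else 0)
      = if (x:ℕ) = (i:ℕ) + 1 then (if (i:ℕ) = j then (1:ℂ) else 0) else 0 := by
    intro x
    by_cases hx : (x:ℕ) = (i:ℕ) + 1
    · simp [hx]
    · simp [hx]
  have e2 : ∀ x : Fin (k+2), star (if (x:ℕ) ≤ 1 ∧ (i:ℕ) = k + 1 then ((Real.sqrt 2 : ℝ) : ℂ)⁻¹ else 0) *
      (if (x:ℕ) ≤ 1 ∧ (j:ℕ) = k + 1 then ((Real.sqrt 2 : ℝ) : ℂ)⁻¹ else 0)
      = if (x:ℕ) ≤ 1 then (if (i:ℕ) = k+1 ∧ (j:ℕ) = k+1 then (2:ℂ)⁻¹ else 0) else 0 := by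
    intro x
    have h3 : star (((Real.sqrt 2 : ℝ) : ℂ)⁻¹) = (((Real.sqrt 2 : ℝ) : ℂ)⁻¹) := by
      rw [star_inv₀]; congr 1; exact Complex.conj_ofReal _
    by_cases hx : (x:ℕ) ≤ 1 <;> by_cases hi : (i:ℕ) = k+1 <;> by_cases hj : (j:ℕ) = k+1 <;>
      simp only [hx, hi, hj, and_false, and_true, if_true, if_false, star_zero,
        mul_zero, zero_mul, h3]
    rw [← mul_inv, h2]
  rw [Finset.sum_congr rfl (fun x _ => e1 x), Finset.sum_congr rfl (fun x _ => e2 x),
    sum_shift, sum_le_one]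
  have hi := i.2
  have hj := j.2
  by_cases hij : i = j
  · subst hij
    simp only [Matrix.one_apply_eq]
    by_cases h : (i:ℕ) + 1 < k + 2
    · rw [dif_pos h, if_neg (c := (i:ℕ) = k + 1 ∧ (i:ℕ) = k + 1) (by omega)]; simp
    · rw [dif_neg h, if_pos (by omega)]; norm_num
  · have hij' : (i:ℕ) ≠ j := fun h => hij (Fin.ext h)
    rw [Matrix.one_apply_ne hij, if_neg (c := (i:ℕ) = j) hij', if_neg (by omega)]
    simp

lemma T_isChannel : IsChannel (T k) := ⟨2, K k, K_norm k, rfl⟩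

lemma S_ct_mulVec (v : Fin (k+2) → ℂ) (i : Fin (k+2)) :
    ((S k)ᴴ *ᵥ v) i = if h : (i:ℕ) + 1 < k + 2 then v ⟨(i:ℕ)+1, h⟩ else 0 := by
  simp only [Matrix.mulVec, dotProduct, Matrix.conjTranspose_apply, S]
  rw [← sum_shift]
  apply Finset.sum_congr rfl
  intro x _
  split_ifs <;> simp

lemma B_ct_mulVec (v : Fin (k+2) → ℂ) :
    (B k)ᴴ *ᵥ v = (((Real.sqrt 2 : ℝ) : ℂ)⁻¹ * (v 0 + v 1)) • e k (k+1) := by
  have h3 : star (((Real.sqrt 2 : ℝ) : ℂ)⁻¹) = (((Real.sqrt 2 : ℝ) : ℂ)⁻¹) := by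
      rw [star_inv₀]; congr 1; exact Complex.conj_ofReal _
  ext i
  simp only [Matrix.mulVec, dotProduct, Matrix.conjTranspose_apply, B, Pi.smul_apply, smul_eq_mul, e]
  by_cases hi : (i:ℕ) = k+1
  · simp only [hi, and_true, if_true, mul_one]
    rw [Fin.sum_univ_succ, Fin.sum_univ_succ]
    have : ∑ x : Fin k, star (if ((x.succ.succ : Fin (k+2)) : ℕ) ≤ 1 then ((Real.sqrt 2 : ℝ) : ℂ)⁻¹ else 0)
        * v x.succ.succ = 0 := by
      apply Finset.sum_eq_zero
      intro x _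
      rw [if_neg (by simp)]
      simp
    rw [this]
    simp [h3, mul_add]
  · simp [hi]

lemma S_ct_e (a : ℕ) (ha : a + 1 < k + 2) : (S k)ᴴ *ᵥ e k (a+1) = e k a := by
  ext i
  rw [S_ct_mulVec]
  simp only [e]
  split_ifs <;> first | rfl | omega

lemma S_ct_iter (v : Fin (k+2) → ℂ) (a : ℕ) (i : Fin (k+2)) :
    ((fun w => (S k)ᴴ *ᵥ w)^[a] v) i = if h : (i:ℕ) + a < k + 2 then v ⟨(i:ℕ)+a, h⟩ else 0 := by
  induction a generalizing i with
  | zero => simp
  | succ a ih =>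
    rw [Function.iterate_succ_apply', S_ct_mulVec]
    by_cases h : (i:ℕ) + 1 < k + 2
    · rw [dif_pos h, ih]
      simp only
      by_cases h' : (i:ℕ) + (a+1) < k + 2
      · rw [dif_pos h', dif_pos (by omega)]
        congr 1; ext; simp; omega
      · rw [dif_neg h', dif_neg (by omega)]
    · rw [dif_neg h, dif_neg (by omega)]

variable {k} in
lemma ker_S {X : Matrix (Fin (k+2)) (Fin (k+2)) ℂ} (hX : X.PosSemidef) {v : Fin (k+2) → ℂ}
    (hv : T k X *ᵥ v = 0) : X *ᵥ ((S k)ᴴ *ᵥ v) = 0 :=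
  krausMap_ker (K k) hX hv 0

variable {k} in
lemma ker_B {X : Matrix (Fin (k+2)) (Fin (k+2)) ℂ} (hX : X.PosSemidef) {v : Fin (k+2) → ℂ}
    (hv : T k X *ᵥ v = 0) (h : v 0 + v 1 ≠ 0) : X *ᵥ (e k (k+1)) = 0 := by
  have h1 : X *ᵥ ((B k)ᴴ *ᵥ v) = 0 := krausMap_ker (K k) hX hv 1
  rw [B_ct_mulVec, Matrix.mulVec_smul, smul_eq_zero] at h1
  rcases h1 with h1 | h1
  · exfalso
    have h2 := sqrt_two_sq
    have h0 : ((Real.sqrt 2 : ℝ) : ℂ) ≠ 0 := by
      intro h; rw [h] at h2; norm_num at h2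
    rcases mul_eq_zero.1 h1 with h3 | h3
    · exact h0 (inv_eq_zero.1 h3)
    · exact h h3
  · exact h1

/-- kernel predicate -/
def P (ρ : Matrix (Fin (k+2)) (Fin (k+2)) ℂ) (n : ℕ) (v : Fin (k+2) → ℂ) : Prop :=
  ((T k)^[n] ρ) *ᵥ v = 0

section
variable {k}
variable {ρ : Matrix (Fin (k+2)) (Fin (k+2)) ℂ} (hρ : ρ.PosSemidef)
include hρ

lemma P_S {n : ℕ} {v : Fin (k+2) → ℂ} (h : P k ρ (n+1) v) : P k ρ n ((S k)ᴴ *ᵥ v) := by
  unfold P at *
  rw [Function.iterate_succ_apply'] at h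
  exact ker_S (krausMap_iter_psd _ n hρ) h

lemma P_B {n : ℕ} {v : Fin (k+2) → ℂ} (h : P k ρ (n+1) v) (h0 : v 0 + v 1 ≠ 0) :
    P k ρ n (e k (k+1)) := by
  unfold P at *
  rw [Function.iterate_succ_apply'] at h
  exact ker_B (krausMap_iter_psd _ n hρ) h h0

lemma P_S_iter {n a : ℕ} {v : Fin (k+2) → ℂ} (h : P k ρ (n+a) v) :
    P k ρ n ((fun w => (S k)ᴴ *ᵥ w)^[a] v) := by
  induction a generalizing v with
  | zero => simpa using h
  | succ a ih =>
    rw [Function.iterate_succ_apply]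
    exact ih (P_S hρ h)

lemma P_e_iter {n i j : ℕ} (hij : i + j < k + 2) (h : P k ρ (n+j) (e k (i+j))) :
    P k ρ n (e k i) := by
  induction j with
  | zero => simpa using h
  | succ j ih =>
    apply ih (by omega)
    have := P_S hρ (n := n + j) h
    rwa [← add_assoc i j 1, S_ct_e k (i+j) (by omega)] at this

lemma P_e_zero {n : ℕ} (h : P k ρ (n+1) (e k 0)) : P k ρ n (e k (k+1)) := by
  apply P_B hρ h
  simp [e]

lemma P_e_one {n : ℕ} (h : P k ρ (n+1) (e k 1)) : P k ρ n (e k (k+1)) := by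
  apply P_B hρ h
  simp [e]

lemma P_cycle1 {n : ℕ} (h : P k ρ (n+(k+1)) (e k (k+1))) : P k ρ n (e k (k+1)) := by
  apply P_e_one hρ
  apply P_e_iter hρ (j := k) (by omega)
  rw [show n + 1 + k = n + (k+1) by ring, show 1 + k = k + 1 by ring]
  exact h

lemma P_cycle2 {n : ℕ} (h : P k ρ (n+(k+2)) (e k (k+1))) : P k ρ n (e k (k+1)) := by
  apply P_e_zero hρ
  apply P_e_iter hρ (j := k+1) (by omega)
  rw [show n + 1 + (k+1) = n + (k+2) by ring, show 0 + (k+1) = k + 1 by ring]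
  exact h

lemma P_cycles {n p q : ℕ} (h : P k ρ (n+(p*(k+1)+q*(k+2))) (e k (k+1))) :
    P k ρ n (e k (k+1)) := by
  induction p with
  | zero =>
    induction q with
    | zero => simpa using h
    | succ q ih =>
      apply ih
      apply P_cycle2 hρ
      rw [show n + (0 * (k+1) + q * (k+2)) + (k+2) = n + (0 * (k+1) + (q+1) * (k+2)) by ring]
      exact h
  | succ p ih =>
    apply ih
    apply P_cycle1 hρ
    rw [show n + (p * (k+1) + q * (k+2)) + (k+1) = n + ((p+1) * (k+1) + q * (k+2)) by ring]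
    exact h

end

lemma exists_rep (m : ℕ) (hm : k * (k+1) ≤ m) : ∃ p q, m = p*(k+1) + q*(k+2) := by
  have h1 := Nat.div_add_mod m (k+1)
  have h2 := Nat.mod_lt m (Nat.succ_pos k)
  set t := m / (k+1) with ht
  set q := m % (k+1) with hq
  have h3 : k ≤ t := by
    rw [ht, Nat.le_div_iff_mul_le (Nat.succ_pos k)]
    exact hm
  obtain ⟨p, hp⟩ : ∃ p, t = p + q := ⟨t - q, by omega⟩
  refine ⟨p, q, ?_⟩
  rw [← h1, hp]; ring

lemma exists_last {v : Fin (k+2) → ℂ} (hv : v ≠ 0) :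
    ∃ a : Fin (k+2), v a ≠ 0 ∧ ∀ b, a < b → v b = 0 := by
  classical
  obtain ⟨i, hi⟩ := Function.ne_iff.1 hv
  let s : Finset (Fin (k+2)) := Finset.univ.filter (fun j => v j ≠ 0)
  have hs : s.Nonempty := ⟨i, by simpa [s] using hi⟩
  refine ⟨s.max' hs, ?_, ?_⟩
  · have := s.max'_mem hs
    simpa [s] using this
  · intro b hb
    by_contra h
    have : b ≤ s.max' hs := s.le_max' b (by simpa [s] using h)
    exact absurd hb (not_lt.2 this)

lemma T_fullRank : FullRankAt (T k) ((k+2)*(k+1) + 1) := by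
  intro ρ hρ h0
  rw [rank_eq_iff]
  intro v hv
  by_contra hne
  apply h0
  obtain ⟨a, ha, ha'⟩ := exists_last k hne
  have ha2 := a.2
  have key : ∀ i : ℕ, i < k + 2 → P k ρ 0 (e k i) := by
    intro i hi
    obtain ⟨j, hj⟩ : ∃ j, i + j = k + 1 := ⟨k + 1 - i, by omega⟩
    obtain ⟨m, hm⟩ : ∃ m, (k+2)*(k+1) + 1 = j + m + 1 + a := by
      refine ⟨(k+2)*(k+1) - j - a, ?_⟩
      have : (k+2)*(k+1) = k*k + 3 * k + 2 := by ring
      omega
    have hm2 : k * (k+1) ≤ m := by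
      have e1 : (k+2)*(k+1) = k*k + 3 * k + 2 := by ring
      have e2 : k * (k+1) = k * k + k := by ring
      omega
    obtain ⟨p, q, hpq⟩ := exists_rep k m hm2
    have hv' : P k ρ (j + m + 1 + a) v := by rw [← hm]; exact hv
    have h1 := P_S_iter hρ hv'
    have h2 : P k ρ (j + m) (e k (k+1)) := by
      apply P_B hρ h1
      rw [S_ct_iter, S_ct_iter]
      have e0 : ((0 : Fin (k+2)) : ℕ) = 0 := rfl
      have e1 : ((1 : Fin (k+2)) : ℕ) = 1 := by simp
      rw [dif_pos (by rw [e0]; omega)]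
      have e3 : (if h : ((1 : Fin (k+2)) : ℕ) + a < k + 2 then v ⟨((1 : Fin (k+2)) : ℕ) + a, h⟩ else 0) = 0 := by
        split_ifs with h
        · apply ha'
          rw [Fin.lt_def]
          simp
        · rfl
      rw [e3, add_zero]
      have e4 : (⟨((0 : Fin (k+2)) : ℕ) + a, by rw [e0]; omega⟩ : Fin (k+2)) = a := by
        ext; simp
      rw [e4]
      exact ha
    rw [hpq] at h2
    have h3 := P_cycles hρ h2
    have h4 : P k ρ (0 + j) (e k (i + j)) := by rw [hj, zero_add]; exact h3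
    exact P_e_iter hρ (by omega) h4
  ext i j
  have := key j j.2
  unfold P at this
  simp only [Function.iterate_zero, id_eq] at this
  have h5 := congrFun this i
  simp only [Matrix.mulVec, dotProduct, e, Pi.zero_apply] at h5
  rw [Finset.sum_eq_single j] at h5
  · simpa using h5
  · intro b _ hb
    rw [if_neg (fun h => hb (Fin.ext h))]; simp
  · intro h; exact absurd (Finset.mem_univ _) h

/-- `x_a = e_a + e_{a+1}` -/
def x (a : ℕ) : Fin (k+2) → ℂ := fun i => if (i:ℕ) = a ∨ (i:ℕ) = a + 1 then 1 else 0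

/-- the span of the `x_a x_aᵀ` reachable at time `t` from `x_0 x_0ᵀ` -/
def V (t : ℕ) : Submodule ℂ (Matrix (Fin (k+2)) (Fin (k+2)) ℂ) :=
  Submodule.span ℂ {M | ∃ a p q : ℕ, a ≤ k + 1 ∧ t = a + p*(k+1) + q*(k+2) ∧
    M = vecMulVec (x k a) (x k a)}

lemma S_mul_apply (M : Matrix (Fin (k+2)) (Fin (k+2)) ℂ) (i j : Fin (k+2)) :
    (S k * M * (S k)ᴴ) i j =
      if h : 0 < (i:ℕ) ∧ 0 < (j:ℕ) then M ⟨(i:ℕ)-1, by omega⟩ ⟨(j:ℕ)-1, by omega⟩ else 0 := by
  have hi := i.2
  have hj := j.2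
  have e1 : ∀ l : Fin (k+2), (S k * M) i l =
      if h : 0 < (i:ℕ) then M ⟨(i:ℕ)-1, by omega⟩ l else 0 := by
    intro l
    simp only [Matrix.mul_apply, S]
    split_ifs with h
    · rw [Finset.sum_eq_single (⟨(i:ℕ)-1, by omega⟩ : Fin (k+2))]
      · rw [if_pos (by simp; omega), one_mul]
      · intro b _ hb
        rw [if_neg, zero_mul]
        intro h'
        apply hb
        ext
        simp; omega
      · intro h'; exact absurd (Finset.mem_univ _) h'
    · apply Finset.sum_eq_zero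
      intro b _
      rw [if_neg (by omega), zero_mul]
  rw [Matrix.mul_apply]
  simp only [e1, Matrix.conjTranspose_apply, S]
  by_cases h : 0 < (i:ℕ)
  · simp only [dif_pos h]
    by_cases h' : 0 < (j:ℕ)
    · rw [dif_pos ⟨h, h'⟩, Finset.sum_eq_single (⟨(j:ℕ)-1, by omega⟩ : Fin (k+2))]
      · rw [if_pos (by simp; omega)]; simp
      · intro b _ hb
        rw [if_neg]
        · simp
        intro h''
        apply hb
        ext
        simp; omega
      · intro h'; exact absurd (Finset.mem_univ _) h'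
    · rw [dif_neg (by tauto)]
      apply Finset.sum_eq_zero
      intro b _
      rw [if_neg (by omega)]; simp
  · simp only [dif_neg h]
    rw [dif_neg (by tauto)]
    simp

lemma B_mul_apply (M : Matrix (Fin (k+2)) (Fin (k+2)) ℂ) :
    (B k * M * (B k)ᴴ) = ((2:ℂ)⁻¹ * M (Fin.last (k+1)) (Fin.last (k+1))) •
      vecMulVec (x k 0) (x k 0) := by
  have h2 := sqrt_two_sq
  have h3 : star (((Real.sqrt 2 : ℝ) : ℂ)⁻¹) = (((Real.sqrt 2 : ℝ) : ℂ)⁻¹) := by
      rw [star_inv₀]; congr 1; exact Complex.conj_ofReal _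
  have e1 : ∀ i l : Fin (k+2), (B k * M) i l =
      if (i:ℕ) ≤ 1 then ((Real.sqrt 2 : ℝ) : ℂ)⁻¹ * M (Fin.last (k+1)) l else 0 := by
    intro i l
    simp only [Matrix.mul_apply, B]
    rw [Finset.sum_eq_single (Fin.last (k+1))]
    · by_cases h : (i:ℕ) ≤ 1
      · rw [if_pos ⟨h, by simp⟩, if_pos h]
      · rw [if_neg (by tauto), if_neg h, zero_mul]
    · intro b _ hb
      rw [if_neg, zero_mul]
      rintro ⟨_, h'⟩
      apply hb
      ext
      simpa using h'
    · intro h'; exact absurd (Finset.mem_univ _) h'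
  ext i j
  rw [Matrix.mul_apply, Finset.sum_eq_single (Fin.last (k+1))]
  · rw [e1, Matrix.conjTranspose_apply, Matrix.smul_apply, vecMulVec_apply]
    simp only [B, x, Fin.val_last, and_true, zero_add]
    by_cases hi : (i:ℕ) ≤ 1 <;> by_cases hj : (j:ℕ) ≤ 1
    · have hi' : (i:ℕ) = 0 ∨ (i:ℕ) = 1 := by omega
      have hj' : (j:ℕ) = 0 ∨ (j:ℕ) = 1 := by omega
      rw [if_pos hi, if_pos hj, if_pos hi', if_pos hj', h3, ← h2, mul_inv, smul_eq_mul]
      ring
    · rw [if_neg hj, if_neg (c := (j:ℕ) = 0 ∨ (j:ℕ) = 1) (by omega)]; simp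
    · rw [if_neg hi, if_neg (c := (i:ℕ) = 0 ∨ (i:ℕ) = 1) (by omega)]; simp
    · rw [if_neg hi, if_neg (c := (i:ℕ) = 0 ∨ (i:ℕ) = 1) (by omega)]; simp
  · intro b _ hb
    rw [Matrix.conjTranspose_apply]
    simp only [B]
    rw [if_neg]
    · simp
    rintro ⟨_, h'⟩
    apply hb
    ext
    simpa using h'
  · intro h'; exact absurd (Finset.mem_univ _) h'

lemma T_apply (M : Matrix (Fin (k+2)) (Fin (k+2)) ℂ) :
    T k M = S k * M * (S k)ᴴ + ((2:ℂ)⁻¹ * M (Fin.last (k+1)) (Fin.last (k+1))) •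
      vecMulVec (x k 0) (x k 0) := by
  rw [← B_mul_apply]
  simp [T, krausMap, K, Fin.sum_univ_two]

lemma S_x (a : ℕ) : S k * vecMulVec (x k a) (x k a) * (S k)ᴴ = vecMulVec (x k (a+1)) (x k (a+1)) := by
  ext i j
  rw [S_mul_apply]
  simp only [vecMulVec_apply, x]
  by_cases h : 0 < (i:ℕ) ∧ 0 < (j:ℕ)
  · rw [dif_pos h]
    have e1 : ((i:ℕ) - 1 = a ∨ (i:ℕ) - 1 = a + 1) ↔ ((i:ℕ) = a + 1 ∨ (i:ℕ) = a + 1 + 1) := by omega
    have e2 : ((j:ℕ) - 1 = a ∨ (j:ℕ) - 1 = a + 1) ↔ ((j:ℕ) = a + 1 ∨ (j:ℕ) = a + 1 + 1) := by omega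
    simp only [e1, e2]
  · rw [dif_neg h]
    rcases not_and_or.1 h with h | h
    · rw [if_neg (c := (i:ℕ) = a + 1 ∨ (i:ℕ) = a + 1 + 1) (by omega)]; simp
    · rw [if_neg (c := (j:ℕ) = a + 1 ∨ (j:ℕ) = a + 1 + 1) (by omega)]; simp

lemma x_big {a : ℕ} (ha : k + 1 < a) : x k a = 0 := by
  ext i
  have := i.2
  simp only [x, Pi.zero_apply]
  rw [if_neg (by omega)]

lemma V_step {t : ℕ} {M : Matrix (Fin (k+2)) (Fin (k+2)) ℂ} (hM : M ∈ V k t) :
    T k M ∈ V k (t+1) := by
  induction hM using Submodule.span_induction with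
  | mem M h =>
    obtain ⟨a, p, q, ha, ht, rfl⟩ := h
    rw [T_apply, S_x]
    apply Submodule.add_mem
    · rcases Nat.lt_or_ge k a with h | h
      · rw [x_big k (by omega : k + 1 < a + 1)]; simp
      · apply Submodule.subset_span
        exact ⟨a+1, p, q, by omega, by omega, rfl⟩
    · rcases Nat.lt_or_ge a k with h | h
      · have : x k a (Fin.last (k+1)) = 0 := by
          simp only [x, Fin.val_last]
          rw [if_neg (by omega)]
        rw [vecMulVec_apply, this]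
        simp
      · apply Submodule.smul_mem
        apply Submodule.subset_span
        rcases Nat.lt_or_ge k a with h' | h'
        · obtain rfl : a = k + 1 := by omega
          exact ⟨0, p, q+1, by omega, by rw [ht]; ring, rfl⟩
        · obtain rfl : a = k := by omega
          exact ⟨0, p+1, q, by omega, by rw [ht]; ring, rfl⟩
  | zero =>
    have : T k (0 : Matrix (Fin (k+2)) (Fin (k+2)) ℂ) = 0 := by
      rw [T_apply]; simp
    rw [this]; exact Submodule.zero_mem _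
  | add x y _ _ hx hy =>
    unfold T at *
    rw [krausMap_add]; exact Submodule.add_mem _ hx hy
  | smul c x _ hx =>
    unfold T at *
    rw [krausMap_smul]; exact Submodule.smul_mem _ c hx

lemma V_iter {t n : ℕ} {M : Matrix (Fin (k+2)) (Fin (k+2)) ℂ} (hM : M ∈ V k t) :
    (T k)^[n] M ∈ V k (t+n) := by
  induction n with
  | zero => simpa using hM
  | succ n ih =>
    rw [Function.iterate_succ_apply']
    exact V_step k ih

lemma S_e (a : ℕ) (ha : a < k + 2) :
    S k * vecMulVec (e k a) (e k a) * (S k)ᴴ = vecMulVec (e k (a+1)) (e k (a+1)) := by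
  ext i j
  rw [S_mul_apply]
  simp only [vecMulVec_apply, e]
  by_cases h : 0 < (i:ℕ) ∧ 0 < (j:ℕ)
  · rw [dif_pos h]
    have e1 : ((i:ℕ) - 1 = a) ↔ ((i:ℕ) = a + 1) := by omega
    have e2 : ((j:ℕ) - 1 = a) ↔ ((j:ℕ) = a + 1) := by omega
    simp only [e1, e2]
  · rw [dif_neg h]
    rcases not_and_or.1 h with h | h
    · rw [if_neg (c := (i:ℕ) = a + 1) (by omega)]; simp
    · rw [if_neg (c := (j:ℕ) = a + 1) (by omega)]; simp

lemma T_e_iter (n : ℕ) (hn : n ≤ k + 1) :
    (T k)^[n] (vecMulVec (e k 0) (e k 0)) = vecMulVec (e k n) (e k n) := by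
  induction n with
  | zero => simp
  | succ n ih =>
    rw [Function.iterate_succ_apply', ih (by omega), T_apply, S_e k n (by omega)]
    have : e k n (Fin.last (k+1)) = 0 := by
      simp only [e, Fin.val_last]; rw [if_neg (by omega)]
    rw [vecMulVec_apply, this]
    simp

lemma start : (T k)^[k+2] (vecMulVec (e k 0) (e k 0)) ∈ V k 0 := by
  rw [Function.iterate_succ_apply', T_e_iter k (k+1) le_rfl, T_apply, S_e k (k+1) (by omega)]
  have : e k (k+1+1) = 0 := by
    ext i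
    have := i.2
    simp only [e, Pi.zero_apply]; rw [if_neg (by omega)]
  rw [this]
  simp only [zero_vecMulVec, zero_add]
  apply Submodule.smul_mem
  apply Submodule.subset_span
  exact ⟨0, 0, 0, by omega, by omega, rfl⟩

/-- the alternating vector -/
def chi : Fin (k+2) → ℂ := fun i => (-1)^(i:ℕ)

lemma x_chi (a : ℕ) (ha : a ≤ k) : x k a ⬝ᵥ chi k = 0 := by
  have h1 : x k a = e k a + e k (a+1) := by
    ext i
    simp only [x, e, Pi.add_apply]
    by_cases h : (i:ℕ) = a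
    · rw [if_pos (Or.inl h), if_pos h, if_neg (by omega)]; simp
    · by_cases h' : (i:ℕ) = a + 1
      · rw [if_pos (Or.inr h'), if_neg h, if_pos h']; simp
      · rw [if_neg (by tauto), if_neg h, if_neg h']; simp
  have h2 : ∀ b (hb : b < k + 2), e k b ⬝ᵥ chi k = (-1)^b := by
    intro b hb
    simp only [dotProduct, e, chi]
    rw [Finset.sum_eq_single (⟨b, hb⟩ : Fin (k+2))]
    · simp
    · intro c _ hc
      rw [if_neg (fun h => hc (Fin.ext h)), zero_mul]
    · intro h'; exact absurd (Finset.mem_univ _) h'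
  rw [h1, add_dotProduct, h2 a (by omega), h2 (a+1) (by omega)]
  ring

lemma V_end {M : Matrix (Fin (k+2)) (Fin (k+2)) ℂ} (hM : M ∈ V k (k*(k+2))) :
    M *ᵥ chi k = 0 := by
  induction hM using Submodule.span_induction with
  | mem M h =>
    obtain ⟨a, p, q, _, ht, rfl⟩ := h
    have : a ≤ k := by
      by_contra hak
      obtain rfl : a = k + 1 := by omega
      have h1 : q < k := by
        by_contra hq
        push Not at hq
        have : k * (k+2) ≤ q * (k+2) := Nat.mul_le_mul_right _ hq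
        omega
      obtain ⟨r, rfl⟩ : ∃ r, k = q + r := ⟨k - q, by omega⟩
      have h2 : r * (q + r + 2) = (q + r + 1) * (p + 1) := by
        have : (q + r) * (q + r + 2) = q * (q + r + 2) + r * (q + r + 2) := by ring
        have h3 : (q + r + 1) + p * (q + r + 1) = (q+r+1) * (p+1) := by ring
        omega
      have h3 : (q + r + 1) ∣ r * (q + r + 2) := ⟨p+1, h2⟩
      have h4 : (q + r + 1) ∣ r := by
        have h5 : r * (q + r + 2) = r * (q + r + 1) + r := by ring
        rw [h5] at h3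
        exact (Nat.dvd_add_right (Dvd.intro_left r rfl)).1 h3
      have h6 := Nat.le_of_dvd (by omega) h4
      omega
    rw [vecMulVec_mulVec, x_chi k a this]
    simp
  | zero => simp
  | add x y _ _ hx hy => rw [Matrix.add_mulVec, hx, hy, add_zero]
  | smul c x _ hx => rw [Matrix.smul_mulVec, hx, smul_zero]

lemma T_not_fullRank : ¬ FullRankAt (T k) ((k+2)*(k+1)) := by
  intro h
  have h1 : (vecMulVec (e k 0) (e k 0)).PosSemidef := by
    have : star (e k 0) = e k 0 := by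
      ext i
      simp only [e, Pi.star_apply]
      split_ifs <;> simp
    have h2 := Matrix.posSemidef_vecMulVec_self_star (e k 0)
    rwa [this] at h2
  have h2 : vecMulVec (e k 0) (e k 0) ≠ 0 := by
    have : e k 0 ≠ 0 := by
      intro h
      have := congrFun h 0
      simp [e] at this
    exact vecMulVec_ne_zero this this
  have h3 := h _ h1 h2
  rw [rank_eq_iff] at h3
  have h4 : (T k)^[(k+2)*(k+1)] (vecMulVec (e k 0) (e k 0)) ∈ V k (k*(k+2)) := by
    have e1 : (k+2)*(k+1) = k*(k+2) + (k+2) := by ring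
    rw [e1, Function.iterate_add_apply]
    have := V_iter k (n := k*(k+2)) (start k)
    rwa [zero_add] at this
  have h5 := h3 _ (V_end k h4)
  have h6 := congrFun h5 0
  simp [chi] at h6

end concrete


end Ex

/-- Exact value of the optimal primitivity index: for every `D ≥ 2`, the number `D ^ 2 - D + 1`
is attained as the primitivity index of a primitive quantum channel on the `D × D` matrices, and
no primitive quantum channel has a larger index. -/
theorem result (D : ℕ) (hD : 2 ≤ D) :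
    IsGreatest {p : ℕ | ∃ T : Matrix (Fin D) (Fin D) ℂ → Matrix (Fin D) (Fin D) ℂ,
      IsPrimitive T ∧ primitivityIndex T = p} (D ^ 2 - D + 1) := by
  constructor
  · obtain ⟨k, rfl⟩ : ∃ k, D = k + 2 := ⟨D - 2, by omega⟩
    have h := primitivityIndex_eq (Ex.T_isChannel k) (Ex.T_fullRank k) (Ex.T_not_fullRank k)
    refine ⟨Ex.T k, h.1, ?_⟩
    rw [h.2]
    congr 1
    have : (k+2)^2 = (k+2)*(k+1) + (k+2) := by ring
    omega
  · rintro p ⟨T, hT, rfl⟩
    rw [pow_two]
    exact index_le hD hT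

end Pool.Agent.Results.MP_8bfff4_mp.ExactValue
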